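import Pool.Agent.TH783.MD.Emb
import Pool.Agent.TH783.FC.Itp
import Mathlib.Combinatorics.SimpleGraph.Maps

set_option autoImplicit false

/-!
# Vaught's conjecture and monadically independent hereditary classes of graphs

Vaught's conjecture, perfect-set form, for all first-order theories in all countable languages is
equivalent to its restriction to the complete theories of graphs all of whose finite induced
subgraphs lie in `C`, for every hereditary class `C` of finite graphs which is monadically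
independent, in the combinatorial form of Dreier, Mählmann and Toruńczyk: `C` contains, for some
`r ≥ 1`, arbitrarily large flipped star, clique or half-graph `r`-crossings, or arbitrarily large
comparability grids.
-/

namespace Pool.Agent.Results.MP_5df2c5_lc.MonadicIndependence

open FirstOrder

/-- Vaught's conjecture, perfect-set form, for the theory `T` in the language `L` (the body of the
frozen statement): the models with universe `ℕ` fall into countably many isomorphism classes, or
some continuous family of models, indexed by the Cantor space, consists of pairwise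
non-isomorphic models. -/
def Dichotomy (L : FirstOrder.Language.{0, 0}) (T : L.Theory) : Prop :=
  (∃ g : ℕ → L.Structure ℕ, ∀ S : L.Structure ℕ,
      @FirstOrder.Language.Theory.Model L ℕ S T →
        ∃ n : ℕ, Nonempty (@FirstOrder.Language.Equiv L ℕ ℕ S (g n))) ∨
  (∃ f : (ℕ → Bool) → L.Structure ℕ,
      (∀ x : ℕ → Bool, @FirstOrder.Language.Theory.Model L ℕ (f x) T) ∧
      (∀ x y : ℕ → Bool,
          Nonempty (@FirstOrder.Language.Equiv L ℕ ℕ (f x) (f y)) → x = y) ∧
      (∀ (n : ℕ) (R : L.Relations n) (a : Fin n → ℕ),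
          IsClopen {x : ℕ → Bool | @FirstOrder.Language.Structure.RelMap L ℕ (f x) n R a}) ∧
      (∀ (n : ℕ) (F : L.Functions n) (a : Fin n → ℕ) (b : ℕ),
          IsOpen {x : ℕ → Bool | @FirstOrder.Language.Structure.funMap L ℕ (f x) n F a = b}))

/-- Vaught's conjecture for all first-order theories in all countable languages (the frozen
statement). -/
def FullConjecture : Prop :=
  ∀ L : FirstOrder.Language.{0, 0}, Countable L.Symbols → ∀ T : L.Theory, Dichotomy L T

/-- The vertices of the crossings of order `n`: `n` rows, `n` columns and, for every row and every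
column, a path with `r` vertices. -/
inductive Vertex (n r : ℕ) : Type
  | row (i : Fin n) : Vertex n r
  | col (j : Fin n) : Vertex n r
  | pt (i j : Fin n) (t : Fin r) : Vertex n r

/-- The layers: the rows, the `t`-th vertices of the paths for `t = 0, ..., r - 1`, and the
columns. -/
def Vertex.layer {n r : ℕ} : Vertex n r → Fin (r + 2)
  | row _ => ⟨0, by omega⟩
  | pt _ _ t => ⟨t + 1, by omega⟩
  | col _ => ⟨r + 1, by omega⟩

/-- The star crossing: every row is adjacent to the first vertices of its paths, every column to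
the last vertices of its paths; the paths are disjoint. (The subdivided complete bipartite
graph.) -/
def Star {n r : ℕ} : Vertex n r → Vertex n r → Prop
  | .row i, .pt i' _ t => i = i' ∧ (t : ℕ) = 0
  | .pt i j t, .pt i' j' t' => i = i' ∧ j = j' ∧ (t' : ℕ) = t + 1
  | .pt _ j t, .col j' => j = j' ∧ (t : ℕ) + 1 = r
  | _, _ => False

/-- The clique crossing: moreover, the neighbours of every row and of every column are a clique. -/
def Clique {n r : ℕ} : Vertex n r → Vertex n r → Prop
  | .row i, .pt i' _ t => i = i' ∧ (t : ℕ) = 0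
  | .pt i j t, .pt i' j' t' => (i = i' ∧ j = j' ∧ (t' : ℕ) = t + 1) ∨
      (i = i' ∧ (t : ℕ) = 0 ∧ (t' : ℕ) = 0) ∨ (j = j' ∧ (t : ℕ) + 1 = r ∧ (t' : ℕ) + 1 = r)
  | .pt _ j t, .col j' => j = j' ∧ (t : ℕ) + 1 = r
  | _, _ => False

/-- The half-graph crossing: the `i`-th row is adjacent to the first vertices of the paths of the
rows `i' ≥ i`, the `j'`-th column to the last vertices of the paths of the columns `j ≥ j'`. -/
def Half {n r : ℕ} : Vertex n r → Vertex n r → Prop
  | .row i, .pt i' _ t => i ≤ i' ∧ (t : ℕ) = 0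
  | .pt i j t, .pt i' j' t' => i = i' ∧ j = j' ∧ (t' : ℕ) = t + 1
  | .pt _ j t, .col j' => j' ≤ j ∧ (t : ℕ) + 1 = r
  | _, _ => False

/-- The graph with the edges `E` (in either direction), flipped between the layers `a` and `b`
for all pairs `(a, b)` with `f a b` or `f b a`. -/
def flipped {n r : ℕ} (E : Vertex n r → Vertex n r → Prop) (f : Fin (r + 2) → Fin (r + 2) → Prop) :
    SimpleGraph (Vertex n r) where
  Adj u v := u ≠ v ∧ ¬ ((E u v ∨ E v u) ↔ (f u.layer v.layer ∨ f v.layer u.layer))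
  symm := ⟨fun u v h => ⟨h.1.symm, fun h1 => h.2 (by rw [or_comm, h1, or_comm])⟩⟩
  loopless := ⟨fun u h => h.1 rfl⟩

/-- The comparability grid of order `n`: two points of the grid are adjacent if they are in the
same row or column or are comparable for the product order. -/
def grid (n : ℕ) : SimpleGraph (Fin n × Fin n) where
  Adj u v := u ≠ v ∧ (u.1 = v.1 ∨ u.2 = v.2 ∨ (u.1 < v.1 ↔ u.2 < v.2))
  symm := ⟨fun u v h => ⟨h.1.symm, by
    by_cases h1 : v.1 = u.1
    · exact Or.inl h1
    · by_cases h2 : v.2 = u.2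
      · exact Or.inr (Or.inl h2)
      · rcases h.2 with h3 | h3 | h3
        · exact absurd h3.symm h1
        · exact absurd h3.symm h2
        · right
          right
          have e1 : v.1 < u.1 ↔ ¬ u.1 < v.1 := by
            rw [not_lt]
            exact ⟨le_of_lt, fun h => lt_of_le_of_ne h h1⟩
          have e2 : v.2 < u.2 ↔ ¬ u.2 < v.2 := by
            rw [not_lt]
            exact ⟨le_of_lt, fun h => lt_of_le_of_ne h h2⟩
          rw [e1, e2, h3]⟩⟩
  loopless := ⟨fun u h => h.1 rfl⟩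

/-- A class of finite graphs: for every `n`, a set of graphs with the vertices `0, ..., n - 1`. -/
abbrev GraphClass : Type := ∀ n : ℕ, SimpleGraph (Fin n) → Prop

/-- The class is closed under induced subgraphs and under isomorphism. -/
def Hereditary (C : GraphClass) : Prop :=
  ∀ (m n : ℕ) (H : SimpleGraph (Fin m)) (G : SimpleGraph (Fin n)),
    Nonempty (H ↪g G) → C n G → C m H

/-- Some graph in the class contains `G` as an induced subgraph. -/
def Contains (C : GraphClass) {V : Type} (G : SimpleGraph V) : Prop :=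
  ∃ (n : ℕ) (H : SimpleGraph (Fin n)), C n H ∧ Nonempty (G ↪g H)

/-- Monadic independence, in the combinatorial form: for some `r ≥ 1` and every `n` the class
contains a flipped star, clique or half-graph `r`-crossing of order `n` or the comparability grid
of order `n`. (By the theorem of Dreier, Mählmann and Toruńczyk this is equivalent to the
model-theoretic definition.) -/
def MonadicallyIndependent (C : GraphClass) : Prop :=
  ∃ r : ℕ, 1 ≤ r ∧ ∀ n : ℕ,
    (∃ f : Fin (r + 2) → Fin (r + 2) → Prop,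
      Contains C (flipped (Star (n := n)) f) ∨ Contains C (flipped (Clique (n := n)) f) ∨
      Contains C (flipped (Half (n := n)) f)) ∨
    Contains C (grid n)

/-- The structure is a graph, and all its finite induced subgraphs are in the class. -/
def InClass (C : GraphClass) (S : FirstOrder.Language.graph.Structure ℕ) : Prop :=
  ∃ G : SimpleGraph ℕ,
    (∀ u v, G.Adj u v ↔ @FirstOrder.Language.Structure.RelMap FirstOrder.Language.graph ℕ S 2
      FirstOrder.Language.adj ![u, v]) ∧
    ∀ (n : ℕ) (H : SimpleGraph (Fin n)), Nonempty (H ↪g G) → C n H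

/-! ### Proofs -/

open Pool.Agent.W889.FO (VaughtF)
open Pool.Agent.W889.FO.StE (LG gd)

/-- pigeonhole for antitone properties -/
theorem pigeon {ι : Type} [Finite ι] (P : ι → ℕ → Prop)
    (hP : ∀ c m n, m ≤ n → P c n → P c m) (h : ∀ n, ∃ c, P c n) : ∃ c, ∀ n, P c n := by
  classical
  have := Fintype.ofFinite ι
  by_contra hc
  push Not at hc
  choose k hk using hc
  obtain ⟨c, hc⟩ := h (Finset.univ.sup k)
  exact hk c (hP c _ _ (Finset.le_sup (Finset.mem_univ c)) hc)

theorem contains_mono {C : GraphClass} {V W : Type} {G : SimpleGraph V} {H : SimpleGraph W}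
    (h : Nonempty (G ↪g H)) : Contains C H → Contains C G := by
  rintro ⟨n, K, h1, ⟨e⟩⟩
  obtain ⟨e'⟩ := h
  exact ⟨n, K, h1, ⟨e'.trans e⟩⟩

theorem mem_of_contains {C : GraphClass} (hC : Hereditary C) {V : Type} {G : SimpleGraph V}
    {m : ℕ} {H : SimpleGraph (Fin m)} (h : Nonempty (H ↪g G)) (h1 : Contains C G) : C m H := by
  obtain ⟨n, K, h2, h3⟩ := contains_mono h h1
  exact hC m n H K h3 h2

theorem inClass_of {C : GraphClass} (hC : Hereditary C) {S : LG.Structure ℕ}
    (h1 : ∀ u v, gd S u v → gd S v u) (h2 : ∀ u, ¬ gd S u u)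
    (h3 : ∀ (m : ℕ) (φ : Fin m → ℕ), Function.Injective φ → ∃ (V : Type) (K : SimpleGraph V),
      Contains C K ∧ ∃ ψ : Fin m → V, Function.Injective ψ ∧
        ∀ a b, K.Adj (ψ a) (ψ b) ↔ gd S (φ a) (φ b)) : InClass C S := by
  refine ⟨⟨gd S, ⟨h1⟩, ⟨h2⟩⟩, fun u v => Iff.rfl, fun n H hH => ?_⟩
  obtain ⟨e⟩ := hH
  obtain ⟨V, K, k1, ψ, k2, k3⟩ := h3 n e e.injective
  exact mem_of_contains hC ⟨⟨⟨ψ, k2⟩, fun {a b} => (k3 a b).trans e.map_rel_iff⟩⟩ k1

/-- the flip on natural numbers -/
def ext {r : ℕ} (f : Fin (r + 2) → Fin (r + 2) → Prop) (a b : ℕ) : Prop :=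
  ∃ (ha : a < r + 2) (hb : b < r + 2), f ⟨a, ha⟩ ⟨b, hb⟩ ∨ f ⟨b, hb⟩ ⟨a, ha⟩

theorem ext_symm {r : ℕ} (f : Fin (r + 2) → Fin (r + 2) → Prop) (a b : ℕ) (h : ext f a b) :
    ext f b a := by
  obtain ⟨ha, hb, h⟩ := h
  exact ⟨hb, ha, h.symm⟩

theorem ext_iff {r : ℕ} (f : Fin (r + 2) → Fin (r + 2) → Prop) (a b : Fin (r + 2)) {a' b' : ℕ}
    (ha : (a : ℕ) = a') (hb : (b : ℕ) = b') : ext f a' b' ↔ f a b ∨ f b a := by
  subst ha
  subst hb
  exact ⟨fun ⟨_, _, h⟩ => h, fun h => ⟨a.2, b.2, h⟩⟩

/-! #### Star and clique crossings -/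

section crossing

open Pool.Agent.TH783.FC (Vx Cr Sub sub_symm sub_irr)

variable {r : ℕ}

/-- coordinates which are at most `N` -/
def bd (N : ℕ) : Vx r → Prop
  | .row i => i ≤ N
  | .col j => j ≤ N
  | .pt i j _ => i ≤ N ∧ j ≤ N

/-- the coordinate -/
def qn (N : ℕ) (i : ℕ) : Fin (N + 1) := ⟨min i N, by omega⟩

theorem qn_inj {N i j : ℕ} (hi : i ≤ N) (hj : j ≤ N) : qn N i = qn N j ↔ i = j := by
  unfold qn
  rw [Fin.mk.injEq]
  omega

/-- the vertex -/
def mp (N : ℕ) : Vx r → Vertex (N + 1) r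
  | .row i => .row (qn N i)
  | .col j => .col (qn N j)
  | .pt i j t => .pt (qn N i) (qn N j) t

theorem mp_inj {N : ℕ} {u v : Vx r} (hu : bd N u) (hv : bd N v) (h : mp N u = mp N v) :
    u = v := by
  rcases u with i | j | ⟨i, j, t⟩ <;> rcases v with i' | j' | ⟨i', j', t'⟩ <;>
    simp only [mp, Vertex.row.injEq, Vertex.col.injEq, Vertex.pt.injEq, reduceCtorEq] at h
  · rw [(qn_inj hu hv).1 h]
  · rw [(qn_inj hu hv).1 h]
  · rw [(qn_inj hu.1 hv.1).1 h.1, (qn_inj hu.2 hv.2).1 h.2.1, h.2.2]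

theorem mp_lay {N : ℕ} (u : Vx r) : ((mp N u).layer : ℕ) = u.lay := by
  rcases u with i | j | ⟨i, j, t⟩ <;> rfl

/-- the edges -/
def Ed (s : Bool) {n : ℕ} : Vertex n r → Vertex n r → Prop := if s then Clique else Star

theorem mp_edge {N : ℕ} (s : Bool) {u v : Vx r} (hu : bd N u) (hv : bd N v) :
    Vx.edge s u v ↔ Ed s (mp N u) (mp N v) := by
  cases s
  · show _ ↔ Star _ _
    rcases u with i | j | ⟨i, j, t⟩ <;> rcases v with i' | j' | ⟨i', j', t'⟩ <;>
      simp only [mp, Vx.edge, Star, Bool.false_eq_true, false_and, or_false]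
    · rw [qn_inj hu hv.1]
    · rw [qn_inj hu.2 hv]
    · rw [qn_inj hu.1 hv.1, qn_inj hu.2 hv.2]
  · show _ ↔ Clique _ _
    rcases u with i | j | ⟨i, j, t⟩ <;> rcases v with i' | j' | ⟨i', j', t'⟩ <;>
      simp only [mp, Vx.edge, Clique, true_and]
    · rw [qn_inj hu hv.1]
    · rw [qn_inj hu.2 hv]
    · rw [qn_inj hu.1 hv.1, qn_inj hu.2 hv.2]

/-- the largest coordinate -/
def mx : Vx r → ℕ
  | .row i => i
  | .col j => j
  | .pt i j _ => max i j

theorem bd_of {N : ℕ} {u : Vx r} (h : mx u ≤ N) : bd N u := by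
  rcases u with i | j | ⟨i, j, t⟩
  · exact h
  · exact h
  · exact max_le_iff.1 h

theorem crossing {C : GraphClass} (hC : Hereditary C) (s : Bool)
    {f : Fin (r + 2) → Fin (r + 2) → Prop} (hf : ∀ n, Contains C (flipped (Ed s (n := n)) f))
    {S : LG.Structure ℕ} (hS : Sub r s (ext f) (gd S)) : InClass C S := by
  refine inClass_of hC (fun u v => sub_symm hS (ext_symm f)) (sub_irr hS) fun m φ hφ => ?_
  obtain ⟨g, h1, h2⟩ := hS
  let N := Finset.univ.sup fun a => mx (g (φ a))
  have hb : ∀ a, bd N (g (φ a)) := fun a =>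
    bd_of (Finset.le_sup (f := fun a => mx (g (φ a))) (Finset.mem_univ a))
  refine ⟨_, _, hf (N + 1), fun a => mp N (g (φ a)), fun a b hab => ?_, fun a b => ?_⟩
  · exact hφ (h1 (mp_inj (hb a) (hb b) hab))
  · rw [h2]
    show _ ∧ _ ↔ _ ∧ _
    refine and_congr (not_congr ?_) (not_congr ?_)
    · exact ⟨fun h => mp_inj (hb a) (hb b) h, fun h => congrArg (mp N) h⟩
    · rw [mp_edge s (hb a) (hb b), mp_edge s (hb b) (hb a),
        ext_iff f _ _ (mp_lay (N := N) (g (φ a))) (mp_lay (N := N) (g (φ b)))]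

end crossing

/-! #### Half-graph crossings and grids -/

section rational

open Pool.Agent.TH783.MD (Vx Hc he cg cg_symm WS)

variable {r : ℕ}

/-- the place in a finite set -/
def qr (F : Finset ℚ) (x : ℚ) : Fin (F.card + 1) :=
  ⟨(F.filter (· < x)).card, Nat.lt_succ_of_le (Finset.card_filter_le _ _)⟩

theorem qr_mono (F : Finset ℚ) {x y : ℚ} (h : x ≤ y) : qr F x ≤ qr F y := by
  refine Finset.card_le_card fun z hz => ?_
  rw [Finset.mem_filter] at hz ⊢
  exact ⟨hz.1, hz.2.trans_le h⟩

theorem qr_lt {F : Finset ℚ} {x y : ℚ} (hx : x ∈ F) (h : x < y) : qr F x < qr F y := by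
  refine Finset.card_lt_card (Finset.ssubset_iff_of_subset (fun z hz => ?_)|>.2 ⟨x, ?_, ?_⟩)
  · rw [Finset.mem_filter] at hz ⊢
    exact ⟨hz.1, hz.2.trans h⟩
  · exact Finset.mem_filter.2 ⟨hx, h⟩
  · intro h1
    exact absurd (Finset.mem_filter.1 h1).2 (lt_irrefl x)

theorem qr_le {F : Finset ℚ} {x y : ℚ} (hy : y ∈ F) : qr F x ≤ qr F y ↔ x ≤ y := by
  refine ⟨fun h => ?_, qr_mono F⟩
  by_contra h1
  exact absurd h (not_le.2 (qr_lt hy (not_le.1 h1)))

theorem qr_eq {F : Finset ℚ} {x y : ℚ} (hx : x ∈ F) (hy : y ∈ F) : qr F x = qr F y ↔ x = y := by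
  rw [le_antisymm_iff, qr_le hy, qr_le hx, ← le_antisymm_iff]

theorem qr_lt_iff {F : Finset ℚ} {x y : ℚ} (hx : x ∈ F) : qr F x < qr F y ↔ x < y := by
  rw [← not_le, qr_le hx, not_le]

/-- the coordinates are in `F` -/
def bq (F : Finset ℚ) : Vx ℚ r → Prop
  | .row i => i ∈ F
  | .col j => j ∈ F
  | .pt i j _ => i ∈ F ∧ j ∈ F

/-- the vertex -/
def mq (F : Finset ℚ) : Vx ℚ r → Vertex (F.card + 1) r
  | .row i => .row (qr F i)
  | .col j => .col (qr F j)
  | .pt i j t => .pt (qr F i) (qr F j) t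

theorem mq_inj {F : Finset ℚ} {u v : Vx ℚ r} (hu : bq F u) (hv : bq F v) (h : mq F u = mq F v) :
    u = v := by
  rcases u with i | j | ⟨i, j, t⟩ <;> rcases v with i' | j' | ⟨i', j', t'⟩ <;>
    simp only [mq, Vertex.row.injEq, Vertex.col.injEq, Vertex.pt.injEq, reduceCtorEq] at h
  · rw [(qr_eq hu hv).1 h]
  · rw [(qr_eq hu hv).1 h]
  · rw [(qr_eq hu.1 hv.1).1 h.1, (qr_eq hu.2 hv.2).1 h.2.1, h.2.2]

theorem mq_lay {F : Finset ℚ} (u : Vx ℚ r) : ((mq F u).layer : ℕ) = u.lay := by
  rcases u with i | j | ⟨i, j, t⟩ <;> rfl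

theorem mq_edge {F : Finset ℚ} {u v : Vx ℚ r} (hu : bq F u) (hv : bq F v) :
    he u v ↔ Half (mq F u) (mq F v) := by
  rcases u with i | j | ⟨i, j, t⟩ <;> rcases v with i' | j' | ⟨i', j', t'⟩ <;>
    simp only [mq, he, Half]
  · rw [qr_le hv.1]
  · rw [qr_le hu.2]
  · rw [qr_eq hu.1 hv.1, qr_eq hu.2 hv.2]

/-- the coordinates -/
def cs : Vx ℚ r → Finset ℚ
  | .row i => {i}
  | .col j => {j}
  | .pt i j _ => {i, j}

theorem bq_of {F : Finset ℚ} {u : Vx ℚ r} (h : cs u ⊆ F) : bq F u := by
  rcases u with i | j | ⟨i, j, t⟩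
  · exact h (Finset.mem_singleton_self i)
  · exact h (Finset.mem_singleton_self j)
  · exact ⟨h (Finset.mem_insert_self i _),
      h (Finset.mem_insert_of_mem (Finset.mem_singleton_self j))⟩

theorem half {C : GraphClass} (hC : Hereditary C) (hr : 1 ≤ r)
    {f : Fin (r + 2) → Fin (r + 2) → Prop} (hf : ∀ n, Contains C (flipped (Half (n := n)) f))
    {S : LG.Structure ℕ} (hS : WS r false (ext f) S) : InClass C S := by
  classical
  obtain ⟨g, h1, h2⟩ := hS.half hr
  have hs : ∀ u v, gd S u v → gd S v u := by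
    intro u v h
    rw [h2] at h ⊢
    refine ⟨h.1.symm, fun h3 => h.2 ?_⟩
    rw [or_comm, h3]
    exact ⟨ext_symm f _ _, ext_symm f _ _⟩
  refine inClass_of hC hs (fun u h => ((h2 u u).1 h).1 rfl) fun m φ hφ => ?_
  let F := Finset.univ.biUnion fun a => cs (g (φ a))
  have hb : ∀ a, bq F (g (φ a)) := fun a =>
    bq_of (Finset.subset_biUnion_of_mem (fun a => cs (g (φ a))) (Finset.mem_univ a))
  refine ⟨_, _, hf (F.card + 1), fun a => mq F (g (φ a)), fun a b hab => ?_, fun a b => ?_⟩
  · exact hφ (h1 (mq_inj (hb a) (hb b) hab))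
  · rw [h2]
    show _ ∧ _ ↔ _ ∧ _
    refine and_congr (not_congr ?_) (not_congr ?_)
    · exact ⟨fun h => mq_inj (hb a) (hb b) h, fun h => congrArg (mq F) h⟩
    · rw [mq_edge (hb a) (hb b), mq_edge (hb b) (hb a),
        ext_iff f _ _ (mq_lay (F := F) (g (φ a))) (mq_lay (F := F) (g (φ b)))]

theorem cgrid {C : GraphClass} (hC : Hereditary C) (hf : ∀ n, Contains C (grid n))
    {S : LG.Structure ℕ} (hS : WS 1 true (fun _ _ => False) S) : InClass C S := by
  classical
  obtain ⟨g, h1, h2⟩ := hS.grid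
  refine inClass_of hC (fun u v h => (h2 v u).2 ⟨((h2 u v).1 h).1.symm, cg_symm ((h2 u v).1 h).2⟩)
    (fun u h => ((h2 u u).1 h).1 rfl) fun m φ hφ => ?_
  let F := Finset.univ.biUnion fun a => ({(g (φ a)).1, (g (φ a)).2} : Finset ℚ)
  have hb : ∀ a, (g (φ a)).1 ∈ F ∧ (g (φ a)).2 ∈ F := fun a => by
    have h3 := Finset.subset_biUnion_of_mem (fun a => ({(g (φ a)).1, (g (φ a)).2} : Finset ℚ))
      (Finset.mem_univ a)
    exact ⟨h3 (Finset.mem_insert_self _ _),
      h3 (Finset.mem_insert_of_mem (Finset.mem_singleton_self _))⟩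
  have hinj : ∀ a b, (qr F (g (φ a)).1, qr F (g (φ a)).2) = (qr F (g (φ b)).1, qr F (g (φ b)).2) ↔
      g (φ a) = g (φ b) := by
    intro a b
    rw [Prod.mk.injEq, qr_eq (hb a).1 (hb b).1, qr_eq (hb a).2 (hb b).2, Prod.ext_iff]
  refine ⟨_, _, hf (F.card + 1), fun a => (qr F (g (φ a)).1, qr F (g (φ a)).2),
    fun a b hab => ?_, fun a b => ?_⟩
  · exact hφ (h1 ((hinj a b).1 hab))
  · rw [h2]
    show _ ∧ _ ↔ _ ∧ _
    refine and_congr (not_congr (hinj a b)) ?_
    unfold cg
    rw [qr_eq (hb a).1 (hb b).1, qr_eq (hb a).2 (hb b).2, qr_lt_iff (hb a).1, qr_lt_iff (hb a).2]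

end rational

/-! #### Monotonicity in the order -/

section mono

variable {r : ℕ}

/-- larger orders -/
def up {m n : ℕ} (h : m ≤ n) : Vertex m r → Vertex n r
  | .row i => .row (Fin.castLE h i)
  | .col j => .col (Fin.castLE h j)
  | .pt i j t => .pt (Fin.castLE h i) (Fin.castLE h j) t

theorem up_inj {m n : ℕ} (h : m ≤ n) : Function.Injective (up h : Vertex m r → Vertex n r) := by
  intro u v huv
  rcases u with i | j | ⟨i, j, t⟩ <;> rcases v with i' | j' | ⟨i', j', t'⟩ <;>
    simp only [up, Vertex.row.injEq, Vertex.col.injEq, Vertex.pt.injEq, reduceCtorEq,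
      Fin.castLE_inj] at huv
  · rw [huv]
  · rw [huv]
  · rw [huv.1, huv.2.1, huv.2.2]

theorem up_lay {m n : ℕ} (h : m ≤ n) (u : Vertex m r) : (up h u).layer = u.layer := by
  rcases u with i | j | ⟨i, j, t⟩ <;> rfl

theorem up_ed {m n : ℕ} (h : m ≤ n) (s : Bool) (u v : Vertex m r) :
    Ed s (up h u) (up h v) ↔ Ed s u v := by
  cases s
  · show Star _ _ ↔ Star _ _
    rcases u with i | j | ⟨i, j, t⟩ <;> rcases v with i' | j' | ⟨i', j', t'⟩ <;>
      simp [up, Star]
  · show Clique _ _ ↔ Clique _ _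
    rcases u with i | j | ⟨i, j, t⟩ <;> rcases v with i' | j' | ⟨i', j', t'⟩ <;>
      simp [up, Clique]

theorem up_half {m n : ℕ} (h : m ≤ n) (u v : Vertex m r) :
    Half (up h u) (up h v) ↔ Half u v := by
  rcases u with i | j | ⟨i, j, t⟩ <;> rcases v with i' | j' | ⟨i', j', t'⟩ <;>
    simp [up, Half]

theorem up_flipped {m n : ℕ} (h : m ≤ n) {E : Vertex m r → Vertex m r → Prop}
    {E' : Vertex n r → Vertex n r → Prop} (hE : ∀ u v, E' (up h u) (up h v) ↔ E u v)
    (f : Fin (r + 2) → Fin (r + 2) → Prop) : Nonempty (flipped E f ↪g flipped E' f) := by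
  refine ⟨⟨⟨up h, up_inj h⟩, fun {u v} => ?_⟩⟩
  show _ ∧ _ ↔ _ ∧ _
  refine and_congr (not_congr (up_inj h).eq_iff) (not_congr ?_)
  show ((E' (up h u) (up h v) ∨ E' (up h v) (up h u)) ↔ (f (up h u).layer (up h v).layer ∨
    f (up h v).layer (up h u).layer)) ↔ _
  rw [hE, hE, up_lay, up_lay]

theorem up_grid {m n : ℕ} (h : m ≤ n) : Nonempty (grid m ↪g grid n) := by
  have hinj : Function.Injective fun u : Fin m × Fin m =>
      ((Fin.castLE h u.1, Fin.castLE h u.2) : Fin n × Fin n) := by
    intro u v huv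
    simp only [Prod.mk.injEq, Fin.castLE_inj] at huv
    exact Prod.ext huv.1 huv.2
  refine ⟨⟨⟨_, hinj⟩, fun {u v} => ?_⟩⟩
  show _ ∧ _ ↔ _ ∧ _
  refine and_congr (not_congr hinj.eq_iff) ?_
  show (Fin.castLE h u.1 = Fin.castLE h v.1 ∨ Fin.castLE h u.2 = Fin.castLE h v.2 ∨
    (Fin.castLE h u.1 < Fin.castLE h v.1 ↔ Fin.castLE h u.2 < Fin.castLE h v.2)) ↔ _
  simp only [Fin.castLE_inj, Fin.castLE_lt_castLE_iff]

end mono

/-- the kinds of the patterns -/
abbrev Kind (r : ℕ) : Type := Option (Fin 3 × (Fin (r + 2) → Fin (r + 2) → Prop))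

/-- the patterns -/
def Pat (C : GraphClass) (r : ℕ) (c : Kind r) (n : ℕ) : Prop :=
  match c with
  | none => Contains C (grid n)
  | some (0, f) => Contains C (flipped (Ed false (n := n)) f)
  | some (1, f) => Contains C (flipped (Ed true (n := n)) f)
  | some (2, f) => Contains C (flipped (Half (n := n)) f)

theorem pat_mono (C : GraphClass) (r : ℕ) (c : Kind r) (m n : ℕ) (h : m ≤ n)
    (h1 : Pat C r c n) : Pat C r c m := by
  match c, h1 with
  | none, h1 => exact contains_mono (up_grid h) h1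
  | some (0, f), h1 => exact contains_mono (up_flipped h (up_ed h false) f) h1
  | some (1, f), h1 => exact contains_mono (up_flipped h (up_ed h true) f) h1
  | some (2, f), h1 => exact contains_mono (up_flipped h (up_half h) f) h1

theorem countable_graph : Countable FirstOrder.Language.graph.Symbols := by
  have h1 : Countable (Σ n, FirstOrder.Language.graph.Relations n) :=
    Pool.Agent.W889.FO.StD.countable_LG
  have h2 : IsEmpty (Σ n, FirstOrder.Language.graph.Functions n) :=
    ⟨fun x => (inferInstance : IsEmpty (FirstOrder.Language.graph.Functions x.1)).elim x.2⟩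
  show Countable ((Σ n, FirstOrder.Language.graph.Functions n) ⊕
    Σ n, FirstOrder.Language.graph.Relations n)
  infer_instance

/-- **Theorem.** Let `C` be a hereditary class of finite graphs which is monadically independent.
Vaught's conjecture, perfect-set form, for all first-order theories in all countable languages is
equivalent to its restriction to the complete theories of graphs all of whose models on `ℕ` have
their finite induced subgraphs in `C`. -/
theorem result : ∀ C : GraphClass, Hereditary C → MonadicallyIndependent C →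
    (FullConjecture ↔ ∀ T : FirstOrder.Language.graph.Theory, T.IsComplete →
      (∀ S : FirstOrder.Language.graph.Structure ℕ,
        @FirstOrder.Language.Theory.Model FirstOrder.Language.graph ℕ S T → InClass C S) →
      Dichotomy FirstOrder.Language.graph T) := by
  intro C hC hI
  refine ⟨fun h T _ _ => h _ countable_graph T, fun h L hL T => ?_⟩
  obtain ⟨r, hr, hI⟩ := hI
  obtain ⟨c, hc⟩ := pigeon (Pat C r) (pat_mono C r) fun n => by
    rcases hI n with ⟨f, h1 | h1 | h1⟩ | h1
    · exact ⟨some (0, f), h1⟩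
    · exact ⟨some (1, f), h1⟩
    · exact ⟨some (2, f), h1⟩
    · exact ⟨none, h1⟩
  match c, hc with
  | none, hc =>
    exact Pool.Agent.TH783.MD.main (r := 1) (s := true) (f := fun _ _ => False) le_rfl
      (fun _ _ h => h) (fun _ => rfl)
      (fun T' h1 h2 => h T' h1 fun S hS => cgrid hC hc (h2 S hS)) L hL T
  | some (0, f), hc =>
    exact Pool.Agent.TH783.FC.main (s := false) hr (ext_symm f)
      (fun T' h1 h2 => h T' h1 fun S hS => crossing hC false hc (h2 S hS)) L hL T
  | some (1, f), hc =>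
    exact Pool.Agent.TH783.FC.main (s := true) hr (ext_symm f)
      (fun T' h1 h2 => h T' h1 fun S hS => crossing hC true hc (h2 S hS)) L hL T
  | some (2, f), hc =>
    exact Pool.Agent.TH783.MD.main (s := false) hr (ext_symm f) (fun h3 => by cases h3)
      (fun T' h1 h2 => h T' h1 fun S hS => half hC hr hc (h2 S hS)) L hL T

end Pool.Agent.Results.MP_5df2c5_lc.MonadicIndependence
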