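import Pool.Agent.TH783.OV.Fin

set_option autoImplicit false

/-!
# Vaught's conjecture for ordered modules

Vaught's conjecture, in perfect-set form, for the Borel classes of countable ordered modules over a
countable subring of the reals which are divisible or lexicographic sums of archimedean submodules.
-/

namespace Pool.Agent.Results.MP_5df2c5_lc.OrderedModules

/-- Structures on `ℕ` for the language of ordered modules: a binary relation (the order), a binary
function (the addition) and a unary function (a scalar) for every `t ∈ T`. -/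
abbrev Str (T : Set ℝ) : Type := (ℕ → ℕ → Bool) × (ℕ → ℕ → ℕ) × (T → ℕ → ℕ)

/-- Isomorphism of structures. -/
def Iso {T : Set ℝ} (x y : Str T) : Prop := ∃ σ : Equiv.Perm ℕ,
  (∀ m n, y.1 (σ m) (σ n) = x.1 m n) ∧ (∀ m n, y.2.1 (σ m) (σ n) = σ (x.2.1 m n)) ∧
  ∀ (t : T) (m : ℕ), y.2.2 t (σ m) = σ (x.2.2 t m)

/-- Every element is divisible by every nonzero scalar. -/
def Divisible (K : Subring ℝ) (V : Type) [AddCommGroup V] [Module K V] : Prop :=
  ∀ (s : K) (v : V), s ≠ 0 → ∃ w : V, s • w = v

/-- `V` is the sum of submodules `A γ`, one for every archimedean class `γ`, such that all nonzero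
elements of `A γ` have archimedean class `γ`. (Hence `V` is the lexicographic sum of its
archimedean submodules `A γ`.) -/
def LexicographicSum (K : Subring ℝ) (V : Type) [AddCommGroup V] [LinearOrder V]
    [IsOrderedAddMonoid V] [Module K V] : Prop :=
  ∃ A : ArchimedeanClass V → Submodule K V,
    (∀ γ, ∀ v ∈ A γ, v ≠ 0 → ArchimedeanClass.mk v = γ) ∧ ⨆ γ, A γ = ⊤

/-- The structure `x` is, up to the bijection `e`, an ordered module `V` over the subring `K` of
the reals generated by `T`; the ordered module is divisible, or a lexicographic sum of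
archimedean submodules. -/
def IsOrderedModule {T : Set ℝ} (x : Str T) : Prop :=
  ∃ (V : Type) (_ : AddCommGroup V) (_ : LinearOrder V) (_ : IsOrderedAddMonoid V)
    (_ : Module (Subring.closure T) V) (e : ℕ ≃ V),
    (∀ (s : Subring.closure T) (v : V), 0 < s → 0 < v → 0 < s • v) ∧
    (∀ m n, x.1 m n = true ↔ e m < e n) ∧
    (∀ m n, e (x.2.1 m n) = e m + e n) ∧
    (∀ (t : T) (m : ℕ),
      e (x.2.2 t m) = (⟨t, Subring.subset_closure t.2⟩ : Subring.closure T) • e m) ∧
    (Divisible (Subring.closure T) V ∨ LexicographicSum (Subring.closure T) V)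

/-- Vaught's conjecture, in perfect-set form, for the isomorphism-invariant Borel classes `B` of
countably infinite ordered modules over the subring of `ℝ` generated by a countable set `T`, which
are divisible or lexicographic sums of archimedean submodules: either `B` has at most countably
many isomorphism types, or there is a continuous family of pairwise non-isomorphic members of `B`
indexed by the Cantor space. -/
theorem result (T : Set ℝ) (hT : T.Countable) (B : Set (Str T)) (hB : MeasurableSet B)
    (hBi : ∀ x ∈ B, ∀ y, Iso x y → y ∈ B) (hBg : ∀ x ∈ B, IsOrderedModule x) :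
    (∃ f : ℕ → Str T, ∀ x ∈ B, ∃ n, Iso (f n) x) ∨
    (∃ g : (ℕ → Bool) → Str T, Continuous g ∧ (∀ c, g c ∈ B) ∧
      ∀ c d, Iso (g c) (g d) → c = d) := by
  have : Countable T := hT.to_subtype
  refine Pool.Agent.TH783.OV.main B hB hBi ?_
  intro x hx
  obtain ⟨V, i1, i2, i3, i4, e, h1, h2, h3, h4, h5⟩ := hBg x hx
  exact ⟨V, i1, i2, i3, i4, e, h1, ⟨h2, h3, h4⟩, h5⟩

end Pool.Agent.Results.MP_5df2c5_lc.OrderedModules
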