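import Pool.Agent.TH686.FO.Main

set_option autoImplicit false

/-!
# Vaught's conjecture for the first-order theories of two linear orders

Vaught's conjecture, perfect-set form, for the complete first-order theories of sets with two linear
orders implies the full conjecture (all first-order theories in all countable languages). For one
linear order, even with unary predicates, it is a theorem of Rubin.
-/

namespace Pool.Agent.Results.MP_5df2c5_lc.TwoLinearOrders

open FirstOrder FirstOrder.Language
open Pool.Agent.TH686.FO (L2 R2)

/-- Vaught's conjecture, perfect-set form, for the theory `T` in the language `L` (the body of the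
frozen statement): the models with universe `ℕ` fall into countably many isomorphism classes, or
some continuous family of models, indexed by the Cantor space, consists of pairwise
non-isomorphic models. -/
def Dichotomy (L : FirstOrder.Language.{0, 0}) (T : L.Theory) : Prop :=
  (∃ g : ℕ → L.Structure ℕ, ∀ S : L.Structure ℕ,
      @FirstOrder.Language.Theory.Model L ℕ S T →
        ∃ n : ℕ, Nonempty (@FirstOrder.Language.Equiv L ℕ ℕ S (g n))) ∨
  (∃ f : (ℕ → Bool) → L.Structure ℕ,
      (∀ x : ℕ → Bool, @FirstOrder.Language.Theory.Model L ℕ (f x) T) ∧
      (∀ x y : ℕ → Bool,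
          Nonempty (@FirstOrder.Language.Equiv L ℕ ℕ (f x) (f y)) → x = y) ∧
      (∀ (n : ℕ) (R : L.Relations n) (a : Fin n → ℕ),
          IsClopen {x : ℕ → Bool | @FirstOrder.Language.Structure.RelMap L ℕ (f x) n R a}) ∧
      (∀ (n : ℕ) (F : L.Functions n) (a : Fin n → ℕ) (b : ℕ),
          IsOpen {x : ℕ → Bool | @FirstOrder.Language.Structure.funMap L ℕ (f x) n F a = b}))

/-- Vaught's conjecture for all first-order theories in all countable languages (the frozen
statement). -/
def FullConjecture : Prop :=
  ∀ L : FirstOrder.Language.{0, 0}, Countable L.Symbols → ∀ T : L.Theory, Dichotomy L T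

/-- The interpretation in `S` of one of the two binary relation symbols of the language `L2`. -/
def Rel (S : L2.Structure ℕ) (R : R2 2) (u v : ℕ) : Prop :=
  @FirstOrder.Language.Structure.RelMap L2 ℕ S 2 R ![u, v]

/-- Strict linear orders. -/
structure IsLinear (r : ℕ → ℕ → Prop) : Prop where
  irrefl : ∀ u, ¬ r u u
  trans : ∀ u v w, r u v → r v w → r u w
  total : ∀ u v, u ≠ v → r u v ∨ r v u

/-- Both relations of `S` are strict linear orders of `ℕ`. -/
def TwoLinear (S : L2.Structure ℕ) : Prop := IsLinear (Rel S R2.fst) ∧ IsLinear (Rel S R2.snd)

/-- Vaught's conjecture for the complete first-order theories of two linear orders. -/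
def TwoOrdersConjecture : Prop :=
  ∀ T : L2.Theory, T.IsComplete →
    (∀ S : L2.Structure ℕ, @FirstOrder.Language.Theory.Model L2 ℕ S T → TwoLinear S) →
    Dichotomy L2 T

/-- Vaught's conjecture, perfect-set form, for all first-order theories is equivalent to its
restriction to the complete first-order theories of two linear orders. -/
theorem result : TwoOrdersConjecture ↔ FullConjecture := by
  constructor
  · intro h L hL T
    refine Pool.Agent.TH686.FO.full_pl (fun T hT hS => h T hT fun S hM => ?_) L hL T
    obtain ⟨h1, h2⟩ := hS S hM
    exact ⟨⟨h1.irrefl, h1.trans, fun u v huv => (h1.total u v huv)⟩,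
      ⟨h2.irrefl, h2.trans, fun u v huv => (h2.total u v huv)⟩⟩
  · intro h T _ _
    exact h L2 Pool.Agent.TH686.FO.countable_L2s T

end Pool.Agent.Results.MP_5df2c5_lc.TwoLinearOrders
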