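import Pool.Agent.R617.VT.UnateFO

set_option autoImplicit false

/-!
# Vaught's conjecture for theories whose relation symbols have a constant sign

Vaught's conjecture, perfect-set form, holds for the Borel classes of countable structures that are
closed under adding tuples to some relations and deleting tuples from the other ones (the relations
of arity at most one are not changed), and so for the first-order theories in whose axioms each
relation symbol of arity at least two occurs only positively or only negatively.
-/

namespace Pool.Agent.Results.MP_5df2c5_lc.UnateTheories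

open FirstOrder FirstOrder.Language

/-- Relational structures on `ℕ` with relations of arities `a 0, a 1, ...`. -/
abbrev Str (a : ℕ → ℕ) : Type := (i : ℕ) → (Fin (a i) → ℕ) → Bool

/-- Isomorphism of structures. -/
def Iso {a : ℕ → ℕ} (x y : Str a) : Prop :=
  ∃ σ : Equiv.Perm ℕ, ∀ (i : ℕ) (v : Fin (a i) → ℕ), y i (⇑σ ∘ v) = x i v

/-- `y` arises from `x` by adding tuples to the relations `i` of arity at least two with
`ε i = true`, and by deleting tuples from the relations `i` of arity at least two with
`ε i = false`; the relations of arity at most one do not change. -/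
structure Change {a : ℕ → ℕ} (ε : ℕ → Bool) (x y : Str a) : Prop where
  low : ∀ i, a i < 2 → y i = x i
  add : ∀ i, 2 ≤ a i → ε i = true → ∀ t, x i t = true → y i t = true
  delete : ∀ i, 2 ≤ a i → ε i = false → ∀ t, y i t = true → x i t = true

/-- The set `K` of structures has at most countably many isomorphism types, or it contains a
continuous family, indexed by the Cantor space, of pairwise non-isomorphic structures. -/
def CountableOrPerfect {a : ℕ → ℕ} (K : Set (Str a)) : Prop :=
  (∃ f : ℕ → Str a, ∀ x ∈ K, ∃ n, Iso (f n) x) ∨
  (∃ g : (ℕ → Bool) → Str a, Continuous g ∧ (∀ c, g c ∈ K) ∧ ∀ c d, Iso (g c) (g d) → c = d)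

/-- Vaught's conjecture, perfect-set form, for the theory `T` in the relational language `L`: the
models with universe `ℕ` fall into countably many isomorphism classes, or some continuous family of
models, indexed by the Cantor space, consists of pairwise non-isomorphic models. -/
def Dichotomy (L : FirstOrder.Language.{0, 0}) (T : L.Theory) : Prop :=
  (∃ g : ℕ → L.Structure ℕ, ∀ S : L.Structure ℕ, @Theory.Model L ℕ S T →
    ∃ n : ℕ, Nonempty (@FirstOrder.Language.Equiv L ℕ ℕ S (g n))) ∨
  (∃ f : (ℕ → Bool) → L.Structure ℕ, (∀ x, @Theory.Model L ℕ (f x) T) ∧
    (∀ x y, Nonempty (@FirstOrder.Language.Equiv L ℕ ℕ (f x) (f y)) → x = y) ∧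
    ∀ (n : ℕ) (R : L.Relations n) (t : Fin n → ℕ), IsClopen {x | @Structure.RelMap L ℕ (f x) n R t})

/-- `Sign ε φ true`: the occurrences in `φ` of a relation symbol `R` of arity at least two are
positive (under an even number of negations) if `ε R = true` and negative if `ε R = false`;
`Sign ε φ false`: the other way round. There is no restriction on the quantifiers, on equality and
on the symbols of arity at most one. -/
inductive Sign {L : FirstOrder.Language.{0, 0}} (ε : ∀ n, L.Relations n → Bool) :
    ∀ {α : Type} {n : ℕ}, L.BoundedFormula α n → Bool → Prop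
  | falsum {α : Type} {n : ℕ} (b : Bool) :
      Sign ε (BoundedFormula.falsum : L.BoundedFormula α n) b
  | equal {α : Type} {n : ℕ} (s t : L.Term (α ⊕ Fin n)) (b : Bool) :
      Sign ε (BoundedFormula.equal s t) b
  | rel {α : Type} {n l : ℕ} (R : L.Relations l) (ts : Fin l → L.Term (α ⊕ Fin n)) (b : Bool) :
      (2 ≤ l → ε l R = b) → Sign ε (BoundedFormula.rel R ts) b
  | imp {α : Type} {n : ℕ} (φ ψ : L.BoundedFormula α n) (b : Bool) :
      Sign ε φ (!b) → Sign ε ψ b → Sign ε (BoundedFormula.imp φ ψ) b
  | all {α : Type} {n : ℕ} (φ : L.BoundedFormula α (n + 1)) (b : Bool) :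
      Sign ε φ b → Sign ε (BoundedFormula.all φ) b

private theorem sgn_of {L : FirstOrder.Language.{0, 0}} {ε : ∀ n, L.Relations n → Bool}
    {α : Type} {n : ℕ} {φ : L.BoundedFormula α n} {b : Bool} (h : Sign ε φ b) :
    Pool.Agent.R617.VT.Sgn ε φ b := by
  induction h with
  | falsum b => simp only [Pool.Agent.R617.VT.Sgn]
  | equal s t b => simp only [Pool.Agent.R617.VT.Sgn]
  | rel R ts b h =>
    simp only [Pool.Agent.R617.VT.Sgn]
    exact h
  | imp φ ψ b h1 h2 ih1 ih2 =>
    simp only [Pool.Agent.R617.VT.Sgn]
    exact ⟨ih1, ih2⟩
  | all φ b h ih =>
    simp only [Pool.Agent.R617.VT.Sgn]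
    exact ih

/-- (1) Let `K` be an isomorphism-invariant Borel class of structures on `ℕ` and let `ε` give a sign
to every relation, such that `K` is closed under adding tuples to the positive relations and
deleting tuples from the negative relations, without changing the relations of arity at most
one. Then `K` has at most countably many isomorphism types, or it contains a continuous family,
indexed by the Cantor space, of pairwise non-isomorphic structures. (2) Let `T` be a first-order
theory in a countable relational language such that every relation symbol of arity at least two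
occurs in the axioms of `T` only positively or only negatively. Then the models of `T` on `ℕ` fall
into countably many isomorphism classes, or there is a continuous family, indexed by the Cantor
space, of pairwise non-isomorphic models. -/
theorem result :
    (∀ (a : ℕ → ℕ) (ε : ℕ → Bool) (K : Set (Str a)), MeasurableSet K →
      (∀ x y, Iso x y → (x ∈ K ↔ y ∈ K)) → (∀ x ∈ K, ∀ y, Change ε x y → y ∈ K) →
      CountableOrPerfect K) ∧
    (∀ L : FirstOrder.Language.{0, 0}, Countable L.Symbols → L.IsRelational →
      ∀ (ε : ∀ n, L.Relations n → Bool) (T : L.Theory), (∀ φ ∈ T, Sign ε φ true) →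
      Dichotomy L T) := by
  refine ⟨fun a ε K hK hinv hcl => ?_, fun L hL hrel ε T hT => ?_⟩
  · exact Pool.Agent.R617.VT.unate a ε K hK hinv fun x hx y h =>
      hcl x hx y ⟨h.low, h.add, h.del⟩
  · have hc : Countable (Σ n, L.Relations n) := by
      have : Function.Injective (Sum.inr : (Σ n, L.Relations n) → L.Symbols) :=
        Sum.inr_injective
      exact this.countable
    exact Pool.Agent.R617.VT.unate_fo ε T fun φ hφ => sgn_of (hT φ hφ)

end Pool.Agent.Results.MP_5df2c5_lc.UnateTheories
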